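import Pool.Agent.H61.Q.Kern
import Pool.Agent.H61.Q.OwnRel

set_option autoImplicit false

/-!
Rooted codes with sides (MP_a46c6f_co): closed families, halves and own points.
-/

namespace Pool.Agent.H61.Q

open Pool.Agent.H98.Code Pool.Agent.H17.TR Pool.Agent.H17.P3 Pool.Agent.H77.P3 Pool.Agent.H77.Q
open Pool.Agent.H81.Q

variable {V : Type} [Fintype V] [DecidableEq V] {L : Submodule (ZMod 2) (V → K)}
  {H M : V → V → ZMod 2} {e : V} {S : (V → K) → Finset V → Prop}

/-- a closed family -/
structure CF (M : V → V → ZMod 2) (e : V) {n : ℕ} (p : Fin n → V) : Prop where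
  inj : Function.Injective p
  ne : ∀ j, p j ≠ e
  even : ∑ _i : Fin n, (1 : ZMod 2) = 0
  col : ∀ j, ∑ i, M (p j) (p i) = 1
  pos : 0 < n

/-- the first coordinate of the word of a family -/
def fam (M : V → V → ZMod 2) {n : ℕ} (p : Fin n → V) (w : V) : ZMod 2 := ∑ i, M w (p i)

/-- the word with first coordinate `q` -/
def wd (H : V → V → ZMod 2) (q : V → ZMod 2) (v : V) : K := (q v, deg H v * q v + lap H q v)

theorem lap_sum_fam {n : ℕ} (p : Fin n → V) (α : Fin n → ZMod 2) (v : V) :
    lap H (fun w => ∑ i, α i * M w (p i)) v = ∑ i, α i * lap H (fun w => M w (p i)) v := by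
  unfold lap
  simp_rw [Finset.mul_sum]
  rw [Finset.sum_comm]
  refine Finset.sum_congr rfl fun w _ => ?_
  rw [← Finset.sum_add_distrib, Finset.mul_sum]
  refine Finset.sum_congr rfl fun i _ => ?_
  ring

theorem lap_fam_ne (hi : ∀ u, u ≠ e → ∀ v, lap H (fun w => M w v) u = if u = v then 1 else 0)
    {n : ℕ} {p : Fin n → V} (hp : Function.Injective p) (α : Fin n → ZMod 2) {v : V} (hv : v ≠ e) :
    (∀ j, p j = v → lap H (fun w => ∑ i, α i * M w (p i)) v = α j) ∧
    ((∀ j, p j ≠ v) → lap H (fun w => ∑ i, α i * M w (p i)) v = 0) := by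
  rw [lap_sum_fam]
  constructor
  · intro j hj
    rw [Finset.sum_eq_single j]
    · rw [hi v hv, if_pos hj.symm, mul_one]
    · intro i _ hij
      rw [hi v hv, if_neg, mul_zero]
      intro h
      exact hij (hp (h.symm.trans hj.symm))
    · intro h
      exact absurd (Finset.mem_univ j) h
  · intro hj
    apply Finset.sum_eq_zero
    intro i _
    rw [hi v hv, if_neg (fun h => hj i h.symm), mul_zero]

theorem fam_eq {n : ℕ} (p : Fin n → V) : fam M p = fun w => ∑ i, (fun _ => (1 : ZMod 2)) i * M w (p i) := by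
  funext w
  unfold fam
  exact Finset.sum_congr rfl fun i _ => by rw [one_mul]

/-- a sum over all vertices of a function supported on a family -/
theorem sum_fam {n : ℕ} {p : Fin n → V} (hp : Function.Injective p) (f l : V → ZMod 2)
    (hl : ∀ v, (∀ j, p j ≠ v) → l v = 0) : ∑ v, f v * l v = ∑ j, f (p j) * l (p j) := by
  classical
  have h1 : ∑ v, f v * l v = ∑ v ∈ Finset.univ.image p, f v * l v := by
    symm
    apply Finset.sum_subset (Finset.subset_univ _)
    intro x _ hx
    rw [hl x, mul_zero]
    intro j hj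
    exact hx (Finset.mem_image.2 ⟨j, Finset.mem_univ j, hj⟩)
  rw [h1, Finset.sum_image (fun a _ b _ h => hp h)]

/-- a sum over all vertices of a function supported on a family and one more vertex -/
theorem sum_fam' {n : ℕ} {p : Fin n → V} (hp : Function.Injective p) (f l : V → ZMod 2) {y : V}
    (hy : ∀ j, p j ≠ y) (hly : l y = 1) (hl : ∀ v, (∀ j, p j ≠ v) → v ≠ y → l v = 0) :
    ∑ v, f v * l v = f y + ∑ j, f (p j) * l (p j) := by
  rw [← Finset.add_sum_erase _ _ (Finset.mem_univ y), hly, mul_one]
  congr 1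
  have h1 := sum_fam hp f (fun v => if v = y then 0 else l v) (by
    intro v hv
    show (if v = y then 0 else l v) = 0
    by_cases h : v = y
    · rw [if_pos h]
    · rw [if_neg h, hl v hv h])
  have h2 : ∑ j, f (p j) * (fun v => if v = y then 0 else l v) (p j) = ∑ j, f (p j) * l (p j) := by
    refine Finset.sum_congr rfl fun j _ => ?_
    show f (p j) * (if p j = y then 0 else l (p j)) = _
    rw [if_neg (hy j)]
  rw [← h2, ← h1, ← Finset.add_sum_erase _ _ (Finset.mem_univ y)]
  show _ = f y * (if y = y then 0 else l y) + _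
  rw [if_pos rfl, mul_zero, zero_add]
  refine Finset.sum_congr rfl fun v hv => ?_
  show _ = f v * (if v = y then 0 else l v)
  rw [if_neg (Finset.ne_of_mem_erase hv)]

/-- the Laplacian of the family word -/
theorem lap_fam (hH : IsMat L H)
    (hi : ∀ u, u ≠ e → ∀ v, lap H (fun w => M w v) u = if u = v then 1 else 0)
    {n : ℕ} {p : Fin n → V} (hc : CF M e p) (v : V) :
    (∀ j, p j = v → lap H (fam M p) v = 1) ∧ ((∀ j, p j ≠ v) → lap H (fam M p) v = 0) := by
  rw [fam_eq]
  by_cases hv : v = e
  · subst hv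
    refine ⟨fun j hj => absurd hj (hc.ne j), fun _ => ?_⟩
    have h1 := lap_sum hH.sym (fun w => ∑ i, (fun _ => (1 : ZMod 2)) i * M w (p i))
    rw [← Finset.add_sum_erase _ _ (Finset.mem_univ v)] at h1
    have h2 : ∑ x ∈ Finset.univ.erase v,
        lap H (fun w => ∑ i, (fun _ => (1 : ZMod 2)) i * M w (p i)) x = 0 := by
      have h3 := sum_fam hc.inj (fun _ => 1) (fun x => if x = v then 0 else
        lap H (fun w => ∑ i, (fun _ => (1 : ZMod 2)) i * M w (p i)) x) (by
        intro x hx
        show (if x = v then 0 else _) = _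
        by_cases h : x = v
        · rw [if_pos h]
        · rw [if_neg h]
          exact (lap_fam_ne hi hc.inj (fun _ => 1) h).2 hx)
      have h4 : ∑ j : Fin n, (fun _ => (1 : ZMod 2)) (p j) * (fun x => if x = v then 0 else
          lap H (fun w => ∑ i, (fun _ => (1 : ZMod 2)) i * M w (p i)) x) (p j) = 0 := by
        refine (Finset.sum_congr rfl fun j _ => ?_).trans hc.even
        show 1 * (if p j = v then 0 else _) = (1 : ZMod 2)
        rw [if_neg (hc.ne j), one_mul]
        exact (lap_fam_ne hi hc.inj (fun _ => 1) (hc.ne j)).1 j rfl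
      rw [h4, ← Finset.add_sum_erase _ _ (Finset.mem_univ v)] at h3
      rw [← h3]
      show _ = 1 * (if v = v then 0 else _) + _
      rw [if_pos rfl, mul_zero, zero_add]
      refine Finset.sum_congr rfl fun x hx => ?_
      show _ = 1 * (if x = v then 0 else _)
      rw [if_neg (Finset.ne_of_mem_erase hx), one_mul]
    rw [h2, add_zero] at h1
    exact h1
  · have := lap_fam_ne (M := M) hi hc.inj (fun _ => 1) hv
    exact ⟨this.1, this.2⟩

section
variable (hH : IsMat L H) (hM : ∀ x y, M x y = M y x) (he : ∀ x, M e x = 0)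
  (hi : ∀ u, u ≠ e → ∀ v, lap H (fun w => M w v) u = if u = v then 1 else 0)
include hH hM he hi

/-- the word at a member of the family -/
theorem wd_mem {n : ℕ} {p : Fin n → V} (hc : CF M e p) (j : Fin n) :
    wd H (fam M p) (p j) = (1, deg H (p j) + 1) := by
  unfold wd
  rw [(lap_fam hH hi hc (p j)).1 j rfl]
  have : fam M p (p j) = 1 := hc.col j
  rw [this, mul_one]

theorem wd_off {n : ℕ} {p : Fin n → V} (hc : CF M e p) {v : V} (hv : ∀ j, p j ≠ v) :
    wd H (fam M p) v = (fam M p v, deg H v * fam M p v) := by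
  unfold wd
  rw [(lap_fam hH hi hc v).2 hv, add_zero]

theorem fam_e {n : ℕ} (p : Fin n → V) : fam M p e = 0 :=
  Finset.sum_eq_zero fun i _ => he (p i)

theorem wd_e {n : ℕ} {p : Fin n → V} (hc : CF M e p) : wd H (fam M p) e = 0 := by
  rw [wd_off hH hM he hi hc hc.ne, fam_e hH hM he hi, mul_zero]
  rfl

theorem wd_zfree {n : ℕ} {p : Fin n → V} (hc : CF M e p) : ZFree (wd H (fam M p)) := by
  intro v hv
  by_cases h : ∀ j, p j ≠ v
  · rw [wd_off hH hM he hi hc h] at hv
    have a1 := congrArg Prod.fst hv
    have a2 := congrArg Prod.snd hv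
    simp only [z] at a1 a2
    rw [a1, mul_zero] at a2
    exact absurd a2 (by decide)
  · push Not at h
    obtain ⟨j, rfl⟩ := h
    rw [wd_mem hH hM he hi hc j] at hv
    have a1 := congrArg Prod.fst hv
    simp only [z] at a1
    exact absurd a1 (by decide)

theorem wd_ne {n : ℕ} {p : Fin n → V} (hc : CF M e p) : wd H (fam M p) ≠ 0 := by
  intro h
  have h1 := congrFun h (p ⟨0, hc.pos⟩)
  rw [wd_mem hH hM he hi hc] at h1
  have := congrArg Prod.fst h1
  exact absurd (show (1 : ZMod 2) = 0 from this) (by decide)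

omit hM he hi in
theorem wd_in (q : V → ZMod 2) : wd H q ∈ L := word_mem hH q

/-- **the half lemma** -/
theorem half_of {n : ℕ} {p : Fin n → V} (hc : CF M e p) {c : V → K} (hcL : c ∈ L)
    (hce : (c e).1 = 0) {y : V} (hy : ∀ j, p j ≠ y)
    (hly : lap H (fun w => (c w).1) y = 1)
    (hl : ∀ v, (∀ j, p j ≠ v) → v ≠ y → lap H (fun w => (c w).1) v = 0)
    (hT : ∀ j, c (p j) = 0 ∨ c (p j) = wd H (fam M p) (p j)) (Y : Set V)
    (hY : ∀ x, x ∉ Y → fam M p x = 0 → (c x).1 = 0) : Half M p Y y := by
  set P : V → ZMod 2 := fun w => (c w).1 with hP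
  have hr : ∀ w, P w = M w y + ∑ j, M w (p j) * lap H P (p j) := by
    intro w
    rw [recover hH hM he hi P hce w]
    exact sum_fam' hc.inj (fun v => M w v) (lap H P) hy hly hl
  have hPT : ∀ j, P (p j) = lap H P (p j) := by
    intro j
    have h1 := snd_eq hH hcL (p j)
    rcases hT j with h | h
    · rw [h] at h1
      have h2 : P (p j) = 0 := congrArg Prod.fst h
      have h1' : (0 : ZMod 2) = deg H (p j) * 0 + lap H P (p j) := h1
      rw [mul_zero, zero_add] at h1'
      rw [h2]
      exact h1'
    · rw [wd_mem hH hM he hi hc j] at h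
      have h2 : (c (p j)).1 = 1 := congrArg Prod.fst h
      have h3 : (c (p j)).2 = deg H (p j) + 1 := congrArg Prod.snd h
      rw [h2, h3, mul_one] at h1
      show (c (p j)).1 = _
      rw [h2]
      exact add_left_cancel h1
  refine ⟨fun j => lap H P (p j), ?_, ?_, ?_⟩
  · have h1 := sum_fam' hc.inj (fun _ => (1 : ZMod 2)) (lap H P) hy hly hl
    simp only [one_mul] at h1
    rw [lap_sum hH.sym] at h1
    revert h1
    generalize ∑ j, lap H P (p j) = a
    revert a
    decide
  · intro j
    have h1 := hr (p j)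
    rw [hPT j] at h1
    have h2 : ∑ i, lap H P (p i) * M (p i) (p j) = ∑ i, M (p j) (p i) * lap H P (p i) :=
      Finset.sum_congr rfl fun i _ => by rw [hM (p i) (p j), mul_comm]
    show M y (p j) = lap H P (p j) + ∑ i, lap H P (p i) * M (p i) (p j)
    rw [h2, hM y (p j)]
    revert h1
    generalize lap H P (p j) = a
    generalize M (p j) y = b
    generalize ∑ i, M (p j) (p i) * lap H P (p i) = d
    revert a b d
    decide
  · intro x hx hfx
    have hfx' : fam M p x = 0 := by
      rw [← hfx]
      exact Finset.sum_congr rfl fun i _ => hM x (p i)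
    have h1 := hr x
    have h3 : P x = 0 := hY x hx hfx'
    rw [h3] at h1
    have h2 : ∑ i, lap H P (p i) * M (p i) x = ∑ i, M x (p i) * lap H P (p i) :=
      Finset.sum_congr rfl fun i _ => by rw [hM (p i) x, mul_comm]
    show M y x = ∑ i, lap H P (p i) * M (p i) x
    rw [h2, hM y x]
    revert h1
    generalize M x y = b
    generalize ∑ i, M x (p i) * lap H P (p i) = d
    revert b d
    decide

/-- a splitting gives a half -/
theorem half_split {n : ℕ} {p : Fin n → V} (hc : CF M e p) {g : V}
    (hs : Splits L (wd H (fam M p)) g) : Half M p ∅ g := by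
  obtain ⟨c₁, hc₁, c₂, hc₂, hs, hg1, hg2, hd⟩ := hs
  have hsv : ∀ v, c₁ v + c₂ v = wd H (fam M p) v := fun v => congrFun hs v
  have hgT : ∀ j, p j ≠ g := by
    intro j hj
    have h1 := hsv g
    rw [← hj, wd_mem hH hM he hi hc j, hj, hg1, hg2] at h1
    have := congrArg Prod.fst h1
    exact absurd (show (0 : ZMod 2) = 1 from this) (by decide)
  have hval : ∀ v, v ≠ g → c₁ v = 0 ∨ c₁ v = wd H (fam M p) v := by
    intro v hv
    rcases hd v hv with h | h
    · exact Or.inl h
    · right
      rw [← hsv v, h, add_zero]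
  have hfg : (c₁ g).1 = 0 := congrArg Prod.fst hg1
  have hce : (c₁ e).1 = 0 := by
    by_cases h : e = g
    · rw [h]
      exact hfg
    · rcases hval e h with h1 | h1
      · rw [h1]; rfl
      · rw [h1, wd_e hH hM he hi hc]; rfl
  refine half_of hH hM he hi hc hc₁ hce hgT ?_ ?_ (fun j => hval _ (hgT j)) ∅ ?_
  · have h2 := snd_eq hH hc₁ g
    rw [hfg, mul_zero, zero_add, hg1] at h2
    exact h2.symm
  · intro v hv hvg
    have h2 := snd_eq hH hc₁ v
    rcases hval v hvg with h | h
    · rw [h] at h2
      have h3 : deg H v * (0 : K).1 = 0 := mul_zero _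
      rw [h3, zero_add] at h2
      exact h2.symm
    · rw [wd_off hH hM he hi hc hv] at h
      have h3 : (c₁ v).1 = fam M p v := congrArg Prod.fst h
      have h4 : (c₁ v).2 = deg H v * fam M p v := congrArg Prod.snd h
      rw [h3, h4] at h2
      have h5 : deg H v * fam M p v + 0 = deg H v * fam M p v +
        lap H (fun w => (c₁ w).1) v := by rw [add_zero]; exact h2
      exact (add_left_cancel h5).symm
  · intro x _ hx
    by_cases h : x = g
    · rw [h]
      exact hfg
    · rcases hval x h with h1 | h1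
      · rw [h1]; rfl
      · rw [h1]
        exact hx

/-- **the own lemma** -/
theorem half_own (hS : RSides L e S) {n : ℕ} {p : Fin n → V} (hc : CF M e p) {Y : Finset V}
    (hSu : S (wd H (fam M p)) Y) {y : V} (hyY : y ∈ Y) (α : Fin n → ZMod 2) (β : ZMod 2)
    (hα : ∀ j, M y (p j) = α j + β + ∑ i, α i * M (p i) (p j)) : Half M p (Y : Set V) y := by
  have heY : e ∉ Y := hS.root _ Y hSu
  have hye : y ≠ e := fun h => heY (h ▸ hyY)
  have hYT : ∀ v ∈ Y, ∀ j, p j ≠ v := by
    intro v hv j hj
    have h1 := hS.zero _ Y hSu v hv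
    rw [← hj, wd_mem hH hM he hi hc j] at h1
    have := congrArg Prod.fst h1
    exact absurd (show (1 : ZMod 2) = 0 from this) (by decide)
  set q : V → ZMod 2 := fun w => M w y + ((∑ i, α i * M w (p i)) + β) with hq
  have hlapβ : ∀ v, lap H (fun _ => β) v = 0 := by
    intro v
    unfold lap
    apply Finset.sum_eq_zero
    intro w _
    rw [CharTwo.add_self_eq_zero, mul_zero]
  have hlq : ∀ v, v ≠ e → lap H q v = (if v = y then 1 else 0) +
      lap H (fun w => ∑ i, α i * M w (p i)) v := by
    intro v hv
    have h1 : q = (fun w => M w y) + ((fun w => ∑ i, α i * M w (p i)) + fun _ => β) := rfl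
    rw [h1, lap_add, lap_add, hlapβ, add_zero, hi v hv]
  obtain ⟨k', hk', e1, e2, e3⟩ := hS.part _ Y hSu (wd H q) (wd_in hH q) (by
    intro v hv
    by_cases h : ∀ j, p j ≠ v
    · have hve : v ≠ e := by
        intro h2
        rw [h2] at hv
        exact hv (wd_e hH hM he hi hc)
      have hvy : v ≠ y := by
        intro h2
        exact hv (h2 ▸ hS.zero _ Y hSu y hyY)
      have h1 : lap H q v = 0 := by
        rw [hlq v hve, if_neg hvy, zero_add]
        exact (lap_fam_ne hi hc.inj α hve).2 h
      have h2 : fam M p v = 1 := by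
        rcases z2 (fam M p v) with h3 | h3
        · exfalso
          apply hv
          rw [wd_off hH hM he hi hc h, h3, mul_zero]
          rfl
        · exact h3
      rw [wd_off hH hM he hi hc h, h2, mul_one]
      show ((q v, deg H v * q v + lap H q v) : K) = 0 ∨ ((q v, deg H v * q v + lap H q v) : K) = _
      rw [h1, add_zero]
      rcases z2 (q v) with h3 | h3
      · left
        rw [h3, mul_zero]
        rfl
      · right
        rw [h3, mul_one]
    · push Not at h
      obtain ⟨j, rfl⟩ := h
      have hjy : p j ≠ y := hYT y hyY j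
      have h1 : lap H q (p j) = α j := by
        rw [hlq _ (hc.ne j), if_neg hjy, zero_add]
        exact (lap_fam_ne hi hc.inj α (hc.ne j)).1 j rfl
      have h2 : q (p j) = α j := by
        show M (p j) y + ((∑ i, α i * M (p j) (p i)) + β) = α j
        have h3 : ∑ i, α i * M (p j) (p i) = ∑ i, α i * M (p i) (p j) :=
          Finset.sum_congr rfl fun i _ => by rw [hM (p j) (p i)]
        rw [hM (p j) y, hα j, h3]
        generalize ∑ i, α i * M (p i) (p j) = a
        generalize α j = b
        generalize β = c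
        revert a b c
        decide
      rw [wd_mem hH hM he hi hc j]
      show ((q (p j), deg H (p j) * q (p j) + lap H q (p j)) : K) = 0 ∨
        ((q (p j), deg H (p j) * q (p j) + lap H q (p j)) : K) = _
      rw [h1, h2]
      rcases z2 (α j) with h3 | h3
      · left
        rw [h3, mul_zero, zero_add]
        rfl
      · right
        rw [h3, mul_one])
  have hk'e : k' e = 0 := e2 e (wd_e hH hM he hi hc) heY
  have hlk : ∀ v, lap H (fun w => (k' w).1) v = deg H v * (k' v).1 + (k' v).2 := by
    intro v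
    rw [snd_eq hH hk' v, ← add_assoc, CharTwo.add_self_eq_zero, zero_add]
  have hlY : ∀ v ∈ Y, lap H (fun w => (k' w).1) v = if v = y then 1 else 0 := by
    intro v hv
    have hve : v ≠ e := fun h => heY (h ▸ hv)
    rw [hlk v, e1 v hv]
    show deg H v * q v + (deg H v * q v + lap H q v) = _
    rw [← add_assoc, CharTwo.add_self_eq_zero, zero_add, hlq v hve,
      (lap_fam_ne hi hc.inj α hve).2 (hYT v hv), add_zero]
  refine half_of hH hM he hi hc hk' (by rw [hk'e]; rfl) (hYT y hyY) ?_ ?_ ?_ (Y : Set V) ?_
  · rw [hlY y hyY, if_pos rfl]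
  · intro v hv hvy
    by_cases hvY : v ∈ Y
    · rw [hlY v hvY, if_neg hvy]
    · by_cases h0 : wd H (fam M p) v = 0
      · rw [hlk v, e2 v h0 hvY]
        show deg H v * 0 + 0 = (0 : ZMod 2)
        rw [mul_zero, add_zero]
      · rw [hlk v]
        rcases e3 v h0 with h | h
        · rw [h]
          show deg H v * 0 + 0 = (0 : ZMod 2)
          rw [mul_zero, add_zero]
        · rw [h, wd_off hH hM he hi hc hv]
          show deg H v * fam M p v + deg H v * fam M p v = 0
          exact CharTwo.add_self_eq_zero _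
  · intro j
    have h0 : wd H (fam M p) (p j) ≠ 0 := by
      intro h
      rw [wd_mem hH hM he hi hc j] at h
      have := congrArg Prod.fst h
      exact absurd (show (1 : ZMod 2) = 0 from this) (by decide)
    exact e3 _ h0
  · intro x hx hfx
    have hxY : x ∉ Y := fun h => hx (by exact_mod_cast h)
    by_cases h0 : wd H (fam M p) x = 0
    · rw [e2 x h0 hxY]
      rfl
    · rcases e3 x h0 with h | h
      · rw [h]; rfl
      · rw [h]
        exact hfx

/-- irreducibility of the word of a closed family -/
theorem irr_fam (hinj : ∀ q : V → ZMod 2, q e = 0 → (∀ v, v ≠ e → lap H q v = 0) → q = 0)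
    {n : ℕ} {p : Fin n → V} (hc : CF M e p)
    (hγ : ∀ γ : Fin n → ZMod 2, ∑ i, γ i = 0 → (∀ j, γ j = ∑ i, γ i * M (p i) (p j)) →
      (∀ i, γ i = 0) ∨ ∀ i, γ i = 1) : Irr L (wd H (fam M p)) := by
  intro d hd hle
  have hde : d e = 0 := by
    rcases hle e with h | h
    · exact h
    · exact h.trans (wd_e hH hM he hi hc)
  set P : V → ZMod 2 := fun w => (d w).1 with hP
  have hlk : ∀ v, lap H P v = deg H v * (d v).1 + (d v).2 := by
    intro v
    rw [snd_eq hH hd v, ← add_assoc, CharTwo.add_self_eq_zero, zero_add]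
  have hl0 : ∀ v, (∀ j, p j ≠ v) → lap H P v = 0 := by
    intro v hv
    rw [hlk v]
    rcases hle v with h | h
    · rw [h]
      show deg H v * 0 + 0 = (0 : ZMod 2)
      rw [mul_zero, add_zero]
    · rw [h, wd_off hH hM he hi hc hv]
      show deg H v * fam M p v + deg H v * fam M p v = 0
      exact CharTwo.add_self_eq_zero _
  have hPT : ∀ j, P (p j) = lap H P (p j) := by
    intro j
    rw [hlk]
    show (d (p j)).1 = _
    rcases hle (p j) with h | h
    · rw [h]
      show (0 : ZMod 2) = deg H (p j) * 0 + 0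
      rw [mul_zero, add_zero]
    · rw [h, wd_mem hH hM he hi hc j]
      show (1 : ZMod 2) = deg H (p j) * 1 + (deg H (p j) + 1)
      rw [mul_one, ← add_assoc, CharTwo.add_self_eq_zero, zero_add]
  have hPe : P e = 0 := by
    show (d e).1 = 0
    rw [hde]
    rfl
  have hr : ∀ w, P w = ∑ j, M w (p j) * lap H P (p j) := by
    intro w
    rw [recover hH hM he hi P hPe w]
    exact sum_fam hc.inj (fun v => M w v) (lap H P) hl0
  have hd2 : ∀ v, d v = wd H P v := by
    intro v
    apply Prod.ext
    · rfl
    · exact snd_eq hH hd v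
  rcases hγ (fun j => lap H P (p j)) (by
      have h1 := sum_fam hc.inj (fun _ => (1 : ZMod 2)) (lap H P) hl0
      simp only [one_mul] at h1
      rw [lap_sum hH.sym] at h1
      exact h1.symm) (by
      intro j
      show lap H P (p j) = ∑ i, lap H P (p i) * M (p i) (p j)
      rw [← hPT j, hr (p j)]
      exact Finset.sum_congr rfl fun i _ => by rw [hM (p i) (p j), mul_comm]) with h | h
  · left
    have hP0 : P = 0 := by
      apply hinj P hPe
      intro v _
      by_cases hv : ∀ j, p j ≠ v
      · exact hl0 v hv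
      · push Not at hv
        obtain ⟨j, rfl⟩ := hv
        exact h j
    funext v
    rw [hd2 v]
    unfold wd
    have h1 : lap H P v = 0 := by
      rw [hP0]
      unfold lap
      apply Finset.sum_eq_zero
      intro w _
      show H v w * (0 + 0) = 0
      rw [add_zero, mul_zero]
    rw [h1]
    have h2 : P v = 0 := congrFun hP0 v
    rw [h2, mul_zero, add_zero]
    rfl
  · right
    have hP1 : P = fam M p := by
      funext w
      rw [hr w]
      unfold fam
      refine Finset.sum_congr rfl fun i _ => ?_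
      rw [h i, mul_one]
    funext v
    rw [hd2 v, hP1]

end

end Pool.Agent.H61.Q
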