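import Pool.Agent.H61.Q.Fam
import Pool.Agent.H17.P3.Glue

set_option autoImplicit false

/-!
Rooted codes with sides (MP_a46c6f_co): closed pairs have midpoints and `0110` paths have bad points.
-/

namespace Pool.Agent.H61.Q

open Pool.Agent.H98.Code Pool.Agent.H17.TR Pool.Agent.H17.P3 Pool.Agent.H77.P3 Pool.Agent.H77.Q
open Pool.Agent.H81.Q

variable {V : Type} [Fintype V] [DecidableEq V] {L : Submodule (ZMod 2) (V → K)}
  {H M : V → V → ZMod 2} {e : V} {S : (V → K) → Finset V → Prop}

theorem cf2 (hM : ∀ x y, M x y = M y x) (he : ∀ x, M e x = 0) {a b : V} (h : CP M a b) :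
    CF M e ![a, b] := by
  obtain ⟨h1, h2⟩ := h
  have h3 := (ne_iff' _ _).1 h2
  have hab : a ≠ b := by
    rintro rfl
    exact h2 rfl
  refine ⟨?_, ?_, by decide, ?_, by decide⟩
  · intro i j hij
    fin_cases i <;> fin_cases j <;> simp_all [eq_comm]
  · intro j
    fin_cases j
    · show a ≠ e
      rintro rfl
      exact h2 (by rw [he, he])
    · show b ≠ e
      rintro rfl
      apply h2
      rw [hM a b, he, h1, he]
  · intro j
    rw [Fin.sum_univ_two]
    fin_cases j
    · show M a a + M a b = 1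
      rw [h3]
      generalize M a a = A
      revert A
      decide
    · show M b a + M b b = 1
      rw [hM b a, h3, ← h1]
      generalize M a a = A
      revert A
      decide

theorem cf4 (hM : ∀ x y, M x y = M y x) (he : ∀ x, M e x = 0) {a b c d : V} (h : CQ M a b c d) :
    CF M e ![a, b, c, d] := by
  obtain ⟨⟨hab, hbc, hcd, hac, had, hbd⟩, ha, hb, hcc, hd⟩ := h
  have hba : M b a = 1 := by rw [hM, hab]
  have hcb : M c b = 1 := by rw [hM, hbc]
  have hdc : M d c = 1 := by rw [hM, hcd]
  have hca : M c a = 0 := by rw [hM, hac]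
  have hda : M d a = 0 := by rw [hM, had]
  have hdb : M d b = 0 := by rw [hM, hbd]
  have n1 : a ≠ b := by rintro rfl; rw [ha] at hb; exact absurd hb (by decide)
  have n2 : a ≠ c := by rintro rfl; rw [ha] at hcc; exact absurd hcc (by decide)
  have n3 : a ≠ d := by rintro rfl; rw [hac] at hdc; exact absurd hdc (by decide)
  have n4 : b ≠ c := by rintro rfl; rw [hab] at hac; exact absurd hac (by decide)
  have n5 : b ≠ d := by rintro rfl; rw [hb] at hd; exact absurd hd (by decide)
  have n6 : c ≠ d := by rintro rfl; rw [hcc] at hd; exact absurd hd (by decide)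
  refine ⟨?_, ?_, by decide, ?_, by decide⟩
  · intro i j hij
    fin_cases i <;> fin_cases j
    all_goals first
      | rfl
      | exact absurd hij n1
      | exact absurd hij n2
      | exact absurd hij n3
      | exact absurd hij n4
      | exact absurd hij n5
      | exact absurd hij n6
      | exact absurd hij.symm n1
      | exact absurd hij.symm n2
      | exact absurd hij.symm n3
      | exact absurd hij.symm n4
      | exact absurd hij.symm n5
      | exact absurd hij.symm n6
  · intro j
    fin_cases j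
    · show a ≠ e
      rintro rfl
      rw [he] at hab
      exact absurd hab (by decide)
    · show b ≠ e
      rintro rfl
      rw [he] at hbc
      exact absurd hbc (by decide)
    · show c ≠ e
      rintro rfl
      rw [he] at hcd
      exact absurd hcd (by decide)
    · show d ≠ e
      rintro rfl
      rw [he] at hdc
      exact absurd hdc (by decide)
  · intro j
    rw [Fin.sum_univ_four]
    fin_cases j
    · show M a a + M a b + M a c + M a d = 1
      rw [ha, hab, hac, had]; decide
    · show M b a + M b b + M b c + M b d = 1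
      rw [hba, hb, hbc, hbd]; decide
    · show M c a + M c b + M c c + M c d = 1
      rw [hca, hcb, hcc, hcd]; decide
    · show M d a + M d b + M d c + M d d = 1
      rw [hda, hdb, hdc, hd]; decide

section
variable (hH : IsMat L H) (hM : ∀ x y, M x y = M y x) (he : ∀ x, M e x = 0)
  (hi : ∀ u, u ≠ e → ∀ v, lap H (fun w => M w v) u = if u = v then 1 else 0)
include hH hM he hi

theorem own2 (hS : RSides L e S) {a b : V} (h : CP M a b) {Y : Finset V}
    (hSu : S (wd H (fam M ![a, b])) Y) {y : V} (hy : y ∈ Y) : Half M ![a, b] (Y : Set V) y := by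
  have hc := cf2 hM he h
  have hz := hS.zero _ Y hSu y hy
  have hyT : ∀ j, ![a, b] j ≠ y := by
    intro j hj
    have h1 := hz
    rw [← hj, wd_mem hH hM he hi hc j] at h1
    have := congrArg Prod.fst h1
    exact absurd (show (1 : ZMod 2) = 0 from this) (by decide)
  have hf : M y a + M y b = 0 := by
    have h1 : fam M ![a, b] y = 0 := by
      rw [wd_off hH hM he hi hc hyT] at hz
      exact congrArg Prod.fst hz
    unfold fam at h1
    rw [Fin.sum_univ_two] at h1
    exact h1
  have h1 := h.1
  have h3 := (ne_iff' _ _).1 h.2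
  have hex : ∃ (α : Fin 2 → ZMod 2) (β : ZMod 2),
      ∀ j, M y (![a, b] j) = α j + β + ∑ i, α i * M (![a, b] i) (![a, b] j) := by
    have key : ∀ s x x' : ZMod 2, x + x' = 0 → ∃ α0 α1 β : ZMod 2,
        x = α0 + β + (α0 * s + α1 * (s + 1)) ∧ x' = α1 + β + (α0 * (s + 1) + α1 * s) := by
      decide
    obtain ⟨α0, α1, β, k1, k2⟩ := key (M a a) (M y a) (M y b) hf
    refine ⟨![α0, α1], β, ?_⟩
    intro j
    rw [Fin.sum_univ_two]
    fin_cases j
    · show M y a = α0 + β + (α0 * M a a + α1 * M b a)
      rw [hM b a, h3]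
      exact k1
    · show M y b = α1 + β + (α0 * M a b + α1 * M b b)
      rw [h3, ← h1]
      exact k2
  obtain ⟨α, β, hα⟩ := hex
  exact half_own hH hM he hi hS hc hSu hy α β hα

theorem own4 (hS : RSides L e S) {a b c d : V} (h : CQ M a b c d) {Y : Finset V}
    (hSu : S (wd H (fam M ![a, b, c, d])) Y) {y : V} (hy : y ∈ Y) :
    Half M ![a, b, c, d] (Y : Set V) y := by
  have hc := cf4 hM he h
  have hz := hS.zero _ Y hSu y hy
  have hyT : ∀ j, ![a, b, c, d] j ≠ y := by
    intro j hj
    have h1 := hz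
    rw [← hj, wd_mem hH hM he hi hc j] at h1
    have := congrArg Prod.fst h1
    exact absurd (show (1 : ZMod 2) = 0 from this) (by decide)
  have hf : M y a + M y b + M y c + M y d = 0 := by
    have h1 : fam M ![a, b, c, d] y = 0 := by
      rw [wd_off hH hM he hi hc hyT] at hz
      exact congrArg Prod.fst hz
    unfold fam at h1
    rw [Fin.sum_univ_four] at h1
    exact h1
  obtain ⟨⟨hab, hbc, hcd, hac, had, hbd⟩, ha, hb, hcc, hd⟩ := h
  have hba : M b a = 1 := by rw [hM, hab]
  have hcb : M c b = 1 := by rw [hM, hbc]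
  have hdc : M d c = 1 := by rw [hM, hcd]
  have hca : M c a = 0 := by rw [hM, hac]
  have hda : M d a = 0 := by rw [hM, had]
  have hdb : M d b = 0 := by rw [hM, hbd]
  have hex : ∃ (α : Fin 4 → ZMod 2) (β : ZMod 2), ∀ j, M y (![a, b, c, d] j) =
      α j + β + ∑ i, α i * M (![a, b, c, d] i) (![a, b, c, d] j) := by
    have key : ∀ x0 x1 x2 x3 : ZMod 2, x0 + x1 + x2 + x3 = 0 → ∃ α0 α1 α2 α3 : ZMod 2,
        x0 = α0 + 0 + (α0 * 0 + α1 * 1 + α2 * 0 + α3 * 0) ∧
        x1 = α1 + 0 + (α0 * 1 + α1 * 1 + α2 * 1 + α3 * 0) ∧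
        x2 = α2 + 0 + (α0 * 0 + α1 * 1 + α2 * 1 + α3 * 1) ∧
        x3 = α3 + 0 + (α0 * 0 + α1 * 0 + α2 * 1 + α3 * 0) := by
      decide
    obtain ⟨α0, α1, α2, α3, k0, k1, k2, k3⟩ := key _ _ _ _ hf
    refine ⟨![α0, α1, α2, α3], 0, ?_⟩
    intro j
    rw [Fin.sum_univ_four]
    fin_cases j
    · show M y a = α0 + 0 + (α0 * M a a + α1 * M b a + α2 * M c a + α3 * M d a)
      rw [ha, hba, hca, hda]
      exact k0
    · show M y b = α1 + 0 + (α0 * M a b + α1 * M b b + α2 * M c b + α3 * M d b)
      rw [hab, hb, hcb, hdb]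
      exact k1
    · show M y c = α2 + 0 + (α0 * M a c + α1 * M b c + α2 * M c c + α3 * M d c)
      rw [hac, hbc, hcc, hdc]
      exact k2
    · show M y d = α3 + 0 + (α0 * M a d + α1 * M b d + α2 * M c d + α3 * M d d)
      rw [had, hbd, hcd, hd]
      exact k3
  obtain ⟨α, β, hα⟩ := hex
  exact half_own hH hM he hi hS hc hSu hy α β hα

theorem irr2 (hinj : ∀ q : V → ZMod 2, q e = 0 → (∀ v, v ≠ e → lap H q v = 0) → q = 0)
    {a b : V} (h : CP M a b) : Irr L (wd H (fam M ![a, b])) := by
  refine irr_fam hH hM he hi hinj (cf2 hM he h) ?_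
  intro γ h0 _
  rw [Fin.sum_univ_two] at h0
  rcases z2 (γ 0) with h1 | h1
  · left
    rw [h1, zero_add] at h0
    intro i
    fin_cases i
    · exact h1
    · exact h0
  · right
    rw [h1] at h0
    have h2 : γ 1 = 1 := by
      revert h0
      generalize γ 1 = x
      revert x
      decide
    intro i
    fin_cases i
    · exact h1
    · exact h2

theorem irr4 (hinj : ∀ q : V → ZMod 2, q e = 0 → (∀ v, v ≠ e → lap H q v = 0) → q = 0)
    {a b c d : V} (h : CQ M a b c d) : Irr L (wd H (fam M ![a, b, c, d])) := by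
  refine irr_fam hH hM he hi hinj (cf4 hM he h) ?_
  obtain ⟨⟨hab, hbc, hcd, hac, had, hbd⟩, ha, hb, hcc, hd⟩ := h
  have hba : M b a = 1 := by rw [hM, hab]
  have hcb : M c b = 1 := by rw [hM, hbc]
  have hdc : M d c = 1 := by rw [hM, hcd]
  have hca : M c a = 0 := by rw [hM, hac]
  have hda : M d a = 0 := by rw [hM, had]
  have hdb : M d b = 0 := by rw [hM, hbd]
  intro γ _ hγ
  have g0 := hγ 0
  have g1 := hγ 1
  have g2 := hγ 2
  have g3 := hγ 3
  rw [Fin.sum_univ_four] at g0 g1 g2 g3
  change γ 0 = γ 0 * M a a + γ 1 * M b a + γ 2 * M c a + γ 3 * M d a at g0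
  change γ 1 = γ 0 * M a b + γ 1 * M b b + γ 2 * M c b + γ 3 * M d b at g1
  change γ 2 = γ 0 * M a c + γ 1 * M b c + γ 2 * M c c + γ 3 * M d c at g2
  change γ 3 = γ 0 * M a d + γ 1 * M b d + γ 2 * M c d + γ 3 * M d d at g3
  rw [ha, hba, hca, hda] at g0
  rw [hab, hb, hcb, hdb] at g1
  rw [hac, hbc, hcc, hdc] at g2
  rw [had, hbd, hcd, hd] at g3
  have key : ∀ x0 x1 x2 x3 : ZMod 2, x0 = x0 * 0 + x1 * 1 + x2 * 0 + x3 * 0 →
      x1 = x0 * 1 + x1 * 1 + x2 * 1 + x3 * 0 → x2 = x0 * 0 + x1 * 1 + x2 * 1 + x3 * 1 →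
      x3 = x0 * 0 + x1 * 0 + x2 * 1 + x3 * 0 →
      (x0 = 0 ∧ x1 = 0 ∧ x2 = 0 ∧ x3 = 0) ∨ (x0 = 1 ∧ x1 = 1 ∧ x2 = 1 ∧ x3 = 1) := by
    decide
  rcases key _ _ _ _ g0 g1 g2 g3 with ⟨k0, k1, k2, k3⟩ | ⟨k0, k1, k2, k3⟩
  · left
    intro i
    fin_cases i
    · exact k0
    · exact k1
    · exact k2
    · exact k3
  · right
    intro i
    fin_cases i
    · exact k0
    · exact k1
    · exact k2
    · exact k3

/-- words of families inside the side of a closed pair -/
theorem nest (hS : RSides L e S) (hinj : ∀ q : V → ZMod 2, q e = 0 →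
    (∀ v, v ≠ e → lap H q v = 0) → q = 0) {a b : V} (h : CP M a b) {Y : Finset V}
    (hSu : S (wd H (fam M ![a, b])) Y) {n : ℕ} {p : Fin n → V} (hc : CF M e p)
    (hI : Irr L (wd H (fam M p)))
    (hT : ∀ j, p j ∈ Y ∨ p j = a) (hta : (∃ j, p j = a) → fam M p a = 1)
    (hta' : (∀ j, p j ≠ a) → fam M p a = 0) (hb : fam M p b = 0)
    (hoff : ∀ v, v ∉ Y → M a v = M b v → fam M p v = 0) :
    (∃ g, Half M p ∅ g) ∨ ∃ Y' : Finset V, Y' ⊆ Y ∧ Y'.Nonempty ∧ S (wd H (fam M p)) Y' := by
  have hc2 := cf2 hM he h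
  have heY : e ∉ Y := hS.root _ Y hSu
  have hYT : ∀ v ∈ Y, ∀ j, ![a, b] j ≠ v := by
    intro v hv j hj
    have h1 := hS.zero _ Y hSu v hv
    rw [← hj, wd_mem hH hM he hi hc2 j] at h1
    have := congrArg Prod.fst h1
    exact absurd (show (1 : ZMod 2) = 0 from this) (by decide)
  have hwa : wd H (fam M ![a, b]) a = (1, deg H a + 1) := wd_mem hH hM he hi hc2 0
  have hwb : wd H (fam M ![a, b]) b = (1, deg H b + 1) := wd_mem hH hM he hi hc2 1
  have hab : a ≠ b := by
    rintro rfl
    exact h.2 rfl
  have hpb : ∀ j, p j ≠ b := by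
    intro j hj
    rcases hT j with h1 | h1
    · exact hYT _ h1 1 hj.symm
    · exact hab (h1.symm.trans hj)
  rcases hS.mono _ Y hSu (irr2 hH hM he hi hinj h) (wd H (fam M p)) (wd_in hH _)
    (wd_zfree hH hM he hi hc) (wd_ne hH hM he hi hc) hI (by
      intro v hv
      by_cases hva : v = a
      · subst hva
        rw [hwa]
        by_cases hj : ∃ j, p j = v
        · right
          have h2 := hta hj
          obtain ⟨j, hj⟩ := hj
          rw [← hj]
          exact wd_mem hH hM he hi hc j
        · left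
          push Not at hj
          rw [wd_off hH hM he hi hc hj, hta' hj, mul_zero]
          rfl
      · by_cases hvb : v = b
        · subst hvb
          left
          rw [wd_off hH hM he hi hc hpb, hb, mul_zero]
          rfl
        · have h2 : ∀ j, ![a, b] j ≠ v := by
            intro j
            fin_cases j
            · exact fun h => hva h.symm
            · exact fun h => hvb h.symm
          have hpv : ∀ j, p j ≠ v := by
            intro j hj
            rcases hT j with h1 | h1
            · exact hv (hj ▸ hS.zero _ Y hSu _ h1)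
            · exact hva (hj.symm.trans h1)
          rw [wd_off hH hM he hi hc hpv]
          rw [wd_off hH hM he hi hc2 h2] at hv ⊢
          rcases z2 (fam M ![a, b] v) with h3 | h3
          · exfalso
            apply hv
            rw [h3, mul_zero]
            rfl
          · rw [h3]
            rcases z2 (fam M p v) with h4 | h4
            · left
              rw [h4, mul_zero]
              rfl
            · right
              rw [h4]) (by
      intro v hv hvY
      by_cases hva : v = a
      · subst hva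
        rw [hwa] at hv
        have := congrArg Prod.fst hv
        exact absurd (show (1 : ZMod 2) = 0 from this) (by decide)
      · have h2 : ∀ j, ![a, b] j ≠ v := by
          intro j hj
          have h1 := hv
          rw [← hj, wd_mem hH hM he hi hc2 j] at h1
          have := congrArg Prod.fst h1
          exact absurd (show (1 : ZMod 2) = 0 from this) (by decide)
        have hpv : ∀ j, p j ≠ v := by
          intro j hj
          rcases hT j with h1 | h1
          · exact hvY (hj ▸ h1)
          · exact hva (hj.symm.trans h1)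
        rw [wd_off hH hM he hi hc hpv]
        rw [wd_off hH hM he hi hc2 h2] at hv
        have h3 : fam M ![a, b] v = 0 := congrArg Prod.fst hv
        unfold fam at h3
        rw [Fin.sum_univ_two] at h3
        change M v a + M v b = 0 at h3
        have h4 : M a v = M b v := by
          rw [hM a v, hM b v]
          exact CharTwo.add_eq_zero.1 h3
        rw [hoff v hvY h4, mul_zero]
        rfl) with ⟨g, hg⟩ | ⟨Y', h1, h2, h3⟩
  · exact Or.inl ⟨g, half_split hH hM he hi hc hg⟩
  · exact Or.inr ⟨Y', h1, h2, h3⟩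

end

/-- **the heart**: rooted codes with sides -/
theorem heart {B : Submodule (ZMod 2) (V → K)} (hB : IsCode B) (hS : RSides B e S)
    (hH : IsMat B H) : ∃ M : V → V → ZMod 2, (∀ x y, M x y = M y x) ∧ (∀ x, M e x = 0) ∧
      (∀ u, u ≠ e → ∀ v, (∑ w, H u w * (M u v + M w v)) = if u = v then 1 else 0) ∧
      Pairs M ∧ P4Split M := by
  have hinj := inj' hB hS hH
  obtain ⟨M, hM, he, hi⟩ := exists_inv' hH hinj
  refine ⟨M, hM, he, hi, ?_⟩
  apply own_rel hM (fun a b Y => S (wd H (fam M ![a, b])) Y)
    (fun a b c d Y => S (wd H (fam M ![a, b, c, d])) Y)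
  · intro a b h
    have hc := cf2 hM he h
    rcases hS.ex _ (wd_in hH _) (wd_zfree hH hM he hi hc) (wd_e hH hM he hi hc)
      (wd_ne hH hM he hi hc) (irr2 hH hM he hi hinj h) with ⟨g, hg⟩ | ⟨Y, h1, h2⟩
    · exact Or.inl ⟨g, half_split hH hM he hi hc hg⟩
    · exact Or.inr ⟨Y, h1, h2⟩
  · intro a b h Y hSu y hy
    exact own2 hH hM he hi hS h hSu hy
  · intro a b c d h
    have hc := cf4 hM he h
    rcases hS.ex _ (wd_in hH _) (wd_zfree hH hM he hi hc) (wd_e hH hM he hi hc)
      (wd_ne hH hM he hi hc) (irr4 hH hM he hi hinj h) with ⟨g, hg⟩ | ⟨Y, h1, h2⟩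
    · exact Or.inl ⟨g, half_split hH hM he hi hc hg⟩
    · exact Or.inr ⟨Y, h1, h2⟩
  · intro a b c d h Y hSu y hy
    exact own4 hH hM he hi hS h hSu hy
  · intro a b h Y hSu x y hxy hx hy
    have hxx := half2 hM h (own2 hH hM he hi hS h hSu hx)
    obtain ⟨x1, x2, x3⟩ := hxx
    have hab3 := (ne_iff' _ _).1 h.2
    have hYa : a ∉ Y := by
      intro haY
      have h1 := hS.zero _ Y hSu a haY
      rw [show wd H (fam M ![a, b]) a = (1, deg H a + 1) from
        wd_mem hH hM he hi (cf2 hM he h) 0] at h1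
      have := congrArg Prod.fst h1
      exact absurd (show (1 : ZMod 2) = 0 from this) (by decide)
    have hxa : x ≠ a := fun h1 => hYa (h1 ▸ hx)
    have hfam : ∀ v, fam M ![x, y] v = M v x + M v y := by
      intro v
      unfold fam
      rw [Fin.sum_univ_two]
      rfl
    have hab2 : ∀ A : ZMod 2, A + 1 + A = 1 := by decide
    refine nest hH hM he hi hS hinj h hSu (cf2 hM he hxy) (irr2 hH hM he hi hinj hxy) ?_ ?_ ?_ ?_ ?_
    · intro j
      fin_cases j
      · exact Or.inl hx
      · exact hy
    · rintro ⟨j, hj⟩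
      have hya : y = a := by
        fin_cases j
        · exact absurd hj hxa
        · exact hj
      rw [hfam a, hya, hM a x, x1]
      exact hab2 _
    · intro hj
      have hya : y ≠ a := hj 1
      have hyY : y ∈ Y := by
        rcases hy with h1 | h1
        · exact h1
        · exact absurd h1 hya
      obtain ⟨y1, y2, y3⟩ := half2 hM h (own2 hH hM he hi hS h hSu hyY)
      rw [hfam a, hM a x, hM a y, x1, y1, CharTwo.add_self_eq_zero]
    · rw [hfam b, hM b x, x2]
      rcases hy with hyY | hya
      · obtain ⟨y1, y2, y3⟩ := half2 hM h (own2 hH hM he hi hS h hSu hyY)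
        rw [hM b y, y2, CharTwo.add_self_eq_zero]
      · rw [hya, hM b a, hab3, CharTwo.add_self_eq_zero]
    · intro v hv hv2
      have hv' : v ∉ (Y : Set V) := fun h1 => hv (by exact_mod_cast h1)
      rw [hfam v, hM v x, x3 v hv' hv2]
      rcases hy with hyY | hya
      · obtain ⟨y1, y2, y3⟩ := half2 hM h (own2 hH hM he hi hS h hSu hyY)
        rw [hM v y, y3 v hv' hv2, CharTwo.add_self_eq_zero]
      · rw [hya, hM v a, CharTwo.add_self_eq_zero]
  · intro a b h Y hSu p q r s hq hp hq' hr hs
    have key : ∀ x ∈ Y, M x a = M a a + 1 ∧ M x b = M a a + 1 ∧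
        ∀ v, v ∉ Y → M a v = M b v → M x v = M a v := by
      intro x hx
      obtain ⟨x1, x2, x3⟩ := half2 hM h (own2 hH hM he hi hS h hSu hx)
      exact ⟨x1, x2, fun v hv => x3 v (fun h1 => hv (by exact_mod_cast h1))⟩
    have hYa : a ∉ Y := by
      intro haY
      have h1 := hS.zero _ Y hSu a haY
      rw [show wd H (fam M ![a, b]) a = (1, deg H a + 1) from
        wd_mem hH hM he hi (cf2 hM he h) 0] at h1
      have := congrArg Prod.fst h1
      exact absurd (show (1 : ZMod 2) = 0 from this) (by decide)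
    have hfam : ∀ v, fam M ![p, q, r, s] v = M v p + M v q + M v r + M v s := by
      intro v
      unfold fam
      rw [Fin.sum_univ_four]
      rfl
    have h4 : ∀ A : ZMod 2, A + A + A + A = 0 := by decide
    have hall : ∀ j, ![p, q, r, s] j ∈ Y := by
      intro j
      fin_cases j
      · exact hp
      · exact hq'
      · exact hr
      · exact hs
    refine nest hH hM he hi hS hinj h hSu (cf4 hM he hq) (irr4 hH hM he hi hinj hq) ?_ ?_ ?_ ?_ ?_
    · exact fun j => Or.inl (hall j)
    · rintro ⟨j, hj⟩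
      exact absurd (hj ▸ hall j) hYa
    · intro _
      rw [hfam a, hM a p, hM a q, hM a r, hM a s, (key p hp).1, (key q hq').1, (key r hr).1,
        (key s hs).1]
      exact h4 _
    · rw [hfam b, hM b p, hM b q, hM b r, hM b s, (key p hp).2.1, (key q hq').2.1, (key r hr).2.1,
        (key s hs).2.1]
      exact h4 _
    · intro v hv hv2
      rw [hfam v, hM v p, hM v q, hM v r, hM v s, (key p hp).2.2 v hv hv2,
        (key q hq').2.2 v hv hv2, (key r hr).2.2 v hv hv2, (key s hs).2.2 v hv hv2]
      exact h4 _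

end Pool.Agent.H61.Q
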