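import Pool.Agent.H77.P3.CodeSide
import Pool.Agent.H77.Q.Defs

set_option autoImplicit false

/-!
Rooted codes with sides (MP_a46c6f_co): the kernel of the reduced Laplacian is zero.
-/

namespace Pool.Agent.H61.Q

open Pool.Agent.H98.Code Pool.Agent.H17.TR Pool.Agent.H17.P3 Pool.Agent.H77.P3 Pool.Agent.H77.Q

variable {V : Type}

theorem kadd_self : ∀ a : K, a + a = 0 := by decide

/-- `u` is contained in `w` -/
def Le (u w : V → K) : Prop := ∀ v, u v = 0 ∨ u v = w v

theorem Le.trans {a b c : V → K} (h1 : Le a b) (h2 : Le b c) : Le a c := by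
  intro v
  rcases h1 v with h | h
  · exact Or.inl h
  · rcases h2 v with h3 | h3
    · exact Or.inl (h.trans h3)
    · exact Or.inr (h.trans h3)

/-- irreducible words -/
theorem exists_irr [Fintype V] [DecidableEq V] {L : Submodule (ZMod 2) (V → K)} (v0 : V) :
    ∀ (n : ℕ) (u : V → K), u ∈ L → (Finset.univ.filter fun v => u v ≠ 0).card = n → u v0 ≠ 0 →
      ∃ k ∈ L, Le k u ∧ k v0 ≠ 0 ∧ Irr L k := by
  intro n
  induction n using Nat.strong_induction_on with
  | _ n ih =>
  intro u hu hn h0
  by_cases hI : Irr L u
  · exact ⟨u, hu, fun v => Or.inr rfl, h0, hI⟩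
  · unfold Irr at hI
    push Not at hI
    obtain ⟨d, hd, hdu, hd0, hdne⟩ := hI
    have small : ∀ k ∈ L, Le k u → k ≠ u → k v0 ≠ 0 → ∃ k' ∈ L, Le k' u ∧ k' v0 ≠ 0 ∧ Irr L k' := by
      intro k hk hku hne hk0
      obtain ⟨k', h1, h2, h3, h4⟩ := ih _ (by
        rw [← hn]
        apply Finset.card_lt_card
        refine ⟨?_, ?_⟩
        · intro v hv
          rw [Finset.mem_filter] at hv ⊢
          refine ⟨hv.1, ?_⟩
          intro h
          rcases hku v with h5 | h5
          · exact hv.2 h5
          · exact hv.2 (h5.trans h)
        · intro hsub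
          apply hne
          funext v
          rcases hku v with h5 | h5
          · by_cases h6 : u v = 0
            · rw [h5, h6]
            · have := hsub (Finset.mem_filter.2 ⟨Finset.mem_univ v, h6⟩)
              exact absurd h5 (Finset.mem_filter.1 this).2
          · exact h5) k hk rfl hk0
      exact ⟨k', h1, h2.trans hku, h3, h4⟩
    by_cases hdv : d v0 = 0
    · refine small (u + d) (L.add_mem hu hd) ?_ ?_ ?_
      · intro v
        rcases hdu v with h | h
        · right
          rw [Pi.add_apply, h, add_zero]
        · left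
          rw [Pi.add_apply, h, kadd_self]
      · intro h
        apply hd0
        have : u + d = u + 0 := by rw [h, add_zero]
        exact add_left_cancel this
      · rw [Pi.add_apply, hdv, add_zero]
        exact h0
    · exact small d hd hdu hdne hdv

section
variable [Fintype V] {L : Submodule (ZMod 2) (V → K)} {H : V → V → ZMod 2}

/-- the full word -/
theorem full_mem (hH : IsMat L H) : (fun v => ((1, deg H v) : K)) ∈ L := by
  have h := word_mem hH (fun _ => 1)
  have h2 : (fun v => (((fun _ => (1 : ZMod 2)) v, deg H v * (fun _ => (1 : ZMod 2)) v +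
      lap H (fun _ => 1) v) : K)) = fun v => ((1, deg H v) : K) := by
    funext v
    have : lap H (fun _ => 1) v = 0 := by
      unfold lap
      apply Finset.sum_eq_zero
      intro w _
      rw [show (1 : ZMod 2) + 1 = 0 from by decide, mul_zero]
    rw [this, add_zero, mul_one]
  rw [h2] at h
  exact h

/-- a word contained in the full word does not split -/
theorem no_split (hL : IsCode L) (hH : IsMat L H) {u : V → K}
    (hle : Le u fun v => ((1, deg H v) : K)) (g : V) : ¬ Splits L u g := by
  rintro ⟨c₁, hc₁, c₂, hc₂, hs, hg1, hg2, hd⟩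
  have hf := hL.iso c₁ hc₁ _ (full_mem hH)
  unfold form at hf
  rw [Finset.sum_eq_single g] at hf
  · rw [hg1] at hf
    revert hf
    simp [kf, z]
  · intro v _ hvg
    have hsv : c₁ v + c₂ v = u v := congrFun hs v
    have hc : c₁ v = 0 ∨ c₁ v = (1, deg H v) := by
      rcases hd v hvg with h1 | h1
      · exact Or.inl h1
      · rw [h1, add_zero] at hsv
        rcases hle v with h2 | h2
        · exact Or.inl (hsv.trans h2)
        · exact Or.inr (hsv.trans h2)
    rcases hc with h1 | h1
    · rw [h1]
      simp [kf]
    · rw [h1]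
      simp only [kf]
      generalize deg H v = a
      revert a
      decide
  · intro hh
    exact absurd (Finset.mem_univ g) hh

variable [DecidableEq V] {e : V} {S : (V → K) → Finset V → Prop}

theorem zfree_of_le {u : V → K} (hle : Le u fun v => ((1, deg H v) : K)) : ZFree u := by
  intro v hv
  rcases hle v with h | h
  · rw [h] at hv
    exact absurd hv (by decide)
  · rw [h] at hv
    have := congrArg Prod.fst hv
    exact absurd (show (1 : ZMod 2) = 0 from this) (by decide)

theorem kern_aux (hL : IsCode L) (hS : RSides L e S) (hH : IsMat L H) : ∀ (n : ℕ) (u : V → K)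
    (Y : Finset V), Y.card = n → u ∈ L → (Le u fun v => ((1, deg H v) : K)) → u e = 0 →
      Irr L u → S u Y → Y.Nonempty → False := by
  intro n
  induction n using Nat.strong_induction_on with
  | _ n ih =>
  intro u Y hn hu hle hue hI hSu ⟨y0, hy0⟩
  obtain ⟨k', hk', e1, e2, e3⟩ := hS.part u Y hSu _ (full_mem hH) (by
    intro v hv
    rcases hle v with h | h
    · exact absurd h hv
    · exact Or.inr h.symm)
  have hk'le : Le k' fun v => ((1, deg H v) : K) := by
    intro v
    by_cases hv : u v = 0
    · by_cases hvY : v ∈ Y
      · exact Or.inr (e1 v hvY)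
      · exact Or.inl (e2 v hv hvY)
    · rcases e3 v hv with h | h
      · exact Or.inl h
      · rcases hle v with h2 | h2
        · exact absurd h2 hv
        · exact Or.inr (h.trans h2)
  have hk0 : k' y0 ≠ 0 := by
    rw [e1 y0 hy0]
    intro h
    have := congrArg Prod.fst h
    exact absurd (show (1 : ZMod 2) = 0 from this) (by decide)
  have hk'e : k' e = 0 := e2 e hue (hS.root u Y hSu)
  obtain ⟨k, hk, hkk', hk0', hkI⟩ := exists_irr y0 _ k' hk' rfl hk0
  have hkle : Le k fun v => ((1, deg H v) : K) := hkk'.trans hk'le
  have hke : k e = 0 := by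
    rcases hkk' e with h | h
    · exact h
    · exact h.trans hk'e
  rcases hS.mono u Y hSu hI k hk (zfree_of_le hkle) (by
      intro h
      exact hk0' (congrFun h y0)) hkI (by
      intro v hv
      rcases hkle v with h | h
      · exact Or.inl h
      · rcases hle v with h2 | h2
        · exact absurd h2 hv
        · exact Or.inr (h.trans h2.symm)) (by
      intro v hv hvY
      rcases hkk' v with h | h
      · exact h
      · rw [h]
        exact e2 v hv hvY) with ⟨g, hg⟩ | ⟨Y', hsub, hne, hSk⟩
  · exact no_split hL hH hkle g hg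
  · refine ih Y'.card ?_ k Y' rfl hk hkle hke hkI hSk hne
    rw [← hn]
    refine Finset.card_lt_card ⟨hsub, ?_⟩
    intro h
    exact hk0' (hS.zero k Y' hSk y0 (h hy0))

/-- the kernel is zero -/
theorem kern (hL : IsCode L) (hS : RSides L e S) (hH : IsMat L H) {u : V → K} (hu : u ∈ L)
    (hle : Le u fun v => ((1, deg H v) : K)) (hue : u e = 0) : u = 0 := by
  by_contra h0
  obtain ⟨v0, hv0⟩ : ∃ v, u v ≠ 0 := by
    by_contra hcon
    push Not at hcon
    exact h0 (funext hcon)
  obtain ⟨k, hk, hku, hk0, hkI⟩ := exists_irr v0 _ u hu rfl hv0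
  have hkle := hku.trans hle
  have hke : k e = 0 := by
    rcases hku e with h | h
    · exact h
    · exact h.trans hue
  rcases hS.ex k hk (zfree_of_le hkle) hke (fun h => hk0 (congrFun h v0)) hkI with
    ⟨g, hg⟩ | ⟨Y, hne, hSk⟩
  · exact no_split hL hH hkle g hg
  · exact kern_aux hL hS hH _ k Y rfl hk hkle hke hkI hSk hne

/-- the reduced Laplacian is injective -/
theorem inj' (hL : IsCode L) (hS : RSides L e S) (hH : IsMat L H)
    (p : V → ZMod 2) (he : p e = 0) (h0 : ∀ v, v ≠ e → lap H p v = 0) : p = 0 := by
  have hle : lap H p e = 0 := by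
    have h1 := lap_sum hH.sym p
    rw [← Finset.add_sum_erase _ _ (Finset.mem_univ e)] at h1
    rw [Finset.sum_eq_zero (s := Finset.univ.erase e)
      (fun v hv => h0 v (Finset.ne_of_mem_erase hv)), add_zero] at h1
    exact h1
  have hl : ∀ v, lap H p v = 0 := by
    intro v
    by_cases hv : v = e
    · rw [hv, hle]
    · exact h0 v hv
  have h1 := kern hL hS hH (word_mem hH p) (by
    intro v
    show ((p v, deg H v * p v + lap H p v) : K) = 0 ∨
      ((p v, deg H v * p v + lap H p v) : K) = (1, deg H v)
    rw [hl v, add_zero]
    rcases z2 (p v) with h | h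
    · left
      rw [h, mul_zero]
      rfl
    · right
      rw [h, mul_one]) (by
    show ((p e, deg H e * p e + lap H p e) : K) = 0
    rw [hl e, he, mul_zero, add_zero]
    rfl)
  funext v
  exact congrArg Prod.fst (congrFun h1 v)

end

section
variable [Fintype V] [DecidableEq V] {L : Submodule (ZMod 2) (V → K)} {H : V → V → ZMod 2} {e : V}

/-- the inverse of the reduced Laplacian -/
theorem exists_inv' (hH : IsMat L H)
    (hinj : ∀ p : V → ZMod 2, p e = 0 → (∀ v, v ≠ e → lap H p v = 0) → p = 0) :
    ∃ M : V → V → ZMod 2, (∀ x y, M x y = M y x) ∧ (∀ x, M e x = 0) ∧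
      (∀ u, u ≠ e → ∀ v, lap H (fun w => M w v) u = if u = v then 1 else 0) := by
  have hsurj : Function.Surjective
      (fun (p : V → ZMod 2) (v : V) => if v = e then p e else lap H p v) := by
    rw [← Finite.injective_iff_surjective]
    intro p q hpq
    have hpe : p e = q e := by
      have := congrFun hpq e
      simpa using this
    have h1 : p + q = 0 := by
      apply hinj
      · rw [Pi.add_apply, hpe, CharTwo.add_self_eq_zero]
      · intro v hv
        have := congrFun hpq v
        simp only [if_neg hv] at this
        rw [lap_add, this, CharTwo.add_self_eq_zero]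
    funext v
    have h2 := congrFun h1 v
    rw [Pi.add_apply, Pi.zero_apply] at h2
    revert h2
    generalize p v = a
    generalize q v = b
    revert a b
    decide
  choose m hm using fun y : V => hsurj (fun v => if v = e then 0 else if v = y then 1 else 0)
  have hme : ∀ y, m y e = 0 := by
    intro y
    have := congrFun (hm y) e
    simpa using this
  have hml : ∀ y v, v ≠ e → lap H (m y) v = if v = y then 1 else 0 := by
    intro y v hv
    have := congrFun (hm y) v
    simpa only [if_neg hv] using this
  have hme' : ∀ v, m e v = 0 := by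
    intro v
    have : m e = 0 := by
      apply hinj _ (hme e)
      intro v hv
      rw [hml e v hv, if_neg hv]
    rw [this]
    rfl
  have hsy : ∀ x y, m x y = m y x := by
    intro x y
    by_cases hx : x = e
    · rw [hx, hme', hme]
    by_cases hy : y = e
    · rw [hy, hme', hme]
    have h1 := lap_adj hH.sym (m y) (m x)
    have h2 : ∑ v, m x v * lap H (m y) v = m x y := by
      rw [Finset.sum_eq_single y]
      · rw [hml y y hy, if_pos rfl, mul_one]
      · intro v _ hv
        by_cases hve : v = e
        · rw [hve, hme, zero_mul]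
        · rw [hml y v hve, if_neg hv, mul_zero]
      · intro hh
        exact absurd (Finset.mem_univ y) hh
    have h3 : ∑ v, lap H (m x) v * m y v = m y x := by
      rw [Finset.sum_eq_single x]
      · rw [hml x x hx, if_pos rfl, one_mul]
      · intro v _ hv
        by_cases hve : v = e
        · rw [hve, hme, mul_zero]
        · rw [hml x v hve, if_neg hv, zero_mul]
      · intro hh
        exact absurd (Finset.mem_univ x) hh
    rw [← h2, ← h3, h1]
  refine ⟨fun x y => m y x, fun x y => hsy y x, fun x => hme x, ?_⟩
  intro u hu v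
  exact hml v u hu

end

end Pool.Agent.H61.Q
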